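import Mathlib

set_option autoImplicit false

namespace Pool.Agent.H.MP_933a78_co

/-- a path with `m` vertices from label `a` to label `d` whose vertex and edge labels cover `C` -/
def P (k m a d : ℤ) (C : ℤ → Prop) : Prop :=
  ∃ f : ℤ → ℤ, 1 ≤ m ∧ f 0 = a ∧ f (m - 1) = d ∧ ∀ z, C z →
    (∃ i, 0 ≤ i ∧ i < m ∧ f i = z) ∨ (∃ i, 0 ≤ i ∧ i + 1 < m ∧ k - f i - f (i + 1) = z)

theorem P.mono {k m a d : ℤ} {C D : ℤ → Prop} (h : P k m a d C) (hD : ∀ z, D z → C z) :
    P k m a d D := by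
  obtain ⟨f, h1, h2, h3, h4⟩ := h
  exact ⟨f, h1, h2, h3, fun z hz => h4 z (hD z hz)⟩

theorem P.glue {k m a b m' c d : ℤ} {C D : ℤ → Prop} (h : P k m a b C) (h' : P k m' c d D) :
    P k (m + m') a d (fun z => C z ∨ z = k - b - c ∨ D z) := by
  obtain ⟨f, h1, h2, h3, h4⟩ := h
  obtain ⟨g, g1, g2, g3, g4⟩ := h'
  refine ⟨fun i => if i < m then f i else g (i - m), by omega, ?_, ?_, ?_⟩
  · simp only [show (0 : ℤ) < m by omega, if_true, h2]
  · simp only [show ¬ (m + m' - 1 < m) by omega, if_false]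
    rw [show m + m' - 1 - m = m' - 1 by ring, g3]
  · rintro z (hz | hz | hz)
    · rcases h4 z hz with ⟨i, i0, i1, e⟩ | ⟨i, i0, i1, e⟩
      · exact Or.inl ⟨i, i0, by omega, by simp only [i1, if_true, e]⟩
      · exact Or.inr ⟨i, i0, by omega, by
          simp only [i1, show i < m by omega, if_true, e]⟩
    · refine Or.inr ⟨m - 1, by omega, by omega, ?_⟩
      simp only [show m - 1 < m by omega, show ¬ (m - 1 + 1 < m) by omega, if_true, if_false]
      rw [show m - 1 + 1 - m = 0 by ring, h3, g2, hz]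
    · rcases g4 z hz with ⟨i, i0, i1, e⟩ | ⟨i, i0, i1, e⟩
      · refine Or.inl ⟨i + m, by omega, by omega, ?_⟩
        simp only [show ¬ (i + m < m) by omega, if_false]
        rw [show i + m - m = i by ring, e]
      · refine Or.inr ⟨i + m, by omega, by omega, ?_⟩
        simp only [show ¬ (i + m < m) by omega, show ¬ (i + m + 1 < m) by omega, if_false]
        rw [show i + m - m = i by ring, show i + m + 1 - m = i + 1 by ring, e]

theorem zig (k p o x y s : ℤ) (ho : o = 0 ∨ o = 1) (hs : s = 1 ∨ s = -1) (hp : 1 ≤ 2 * p + o) :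
    P k (2 * p + o) x (if o = 1 then x + s * p else y + s * (p - 1)) (fun z =>
      (∃ j, 0 ≤ j ∧ j < p + o ∧ z = x + s * j) ∨ (∃ j, 0 ≤ j ∧ j < p ∧ z = y + s * j) ∨
      (∃ j, 0 ≤ j ∧ j < 2 * p + o - 1 ∧ z = k - x - y - s * j)) := by
  refine ⟨fun i => if i % 2 = 0 then x + s * (i / 2) else y + s * (i / 2), hp, by simp, ?_, ?_⟩
  · rcases ho with rfl | rfl
    · simp only [show ¬ ((2 * p + 0 - 1) % 2 = 0) by omega, if_false]
      rw [show (2 * p + 0 - 1) / 2 = p - 1 by omega]; simp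
    · simp only [show ((2 * p + 1 - 1) % 2 = 0) by omega, if_true]
      rw [show (2 * p + 1 - 1) / 2 = p by omega]
  · rintro z (⟨j, j0, j1, e⟩ | ⟨j, j0, j1, e⟩ | ⟨j, j0, j1, e⟩)
    · refine Or.inl ⟨2 * j, by omega, by omega, ?_⟩
      simp only [show ((2 * j) % 2 = 0) by omega, if_true]
      rw [show (2 * j) / 2 = j by omega, e]
    · refine Or.inl ⟨2 * j + 1, by omega, by omega, ?_⟩
      simp only [show ¬ ((2 * j + 1) % 2 = 0) by omega, if_false]
      rw [show (2 * j + 1) / 2 = j by omega, e]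
    · refine Or.inr ⟨j, j0, by omega, ?_⟩
      by_cases hj : j % 2 = 0
      · simp only [hj, show ¬ ((j + 1) % 2 = 0) by omega, if_true, if_false]
        rcases hs with rfl | rfl <;> omega
      · simp only [hj, show ((j + 1) % 2 = 0) by omega, if_true, if_false]
        rcases hs with rfl | rfl <;> omega

abbrev Af := ℤ × ℤ × ℤ

def ev (X Y : ℕ) (a : Af) : ℤ := a.1 + a.2.1 * X + a.2.2 * Y
def ad (a b : Af) : Af := (a.1 + b.1, a.2.1 + b.2.1, a.2.2 + b.2.2)
def sb (a b : Af) : Af := (a.1 - b.1, a.2.1 - b.2.1, a.2.2 - b.2.2)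
def ct (c : ℤ) : Af := (c, 0, 0)

@[simp] theorem ev_ad (X Y : ℕ) (a b : Af) : ev X Y (ad a b) = ev X Y a + ev X Y b := by
  simp only [ev, ad]; ring
@[simp] theorem ev_sb (X Y : ℕ) (a b : Af) : ev X Y (sb a b) = ev X Y a - ev X Y b := by
  simp only [ev, sb]; ring
@[simp] theorem ev_ct (X Y : ℕ) (c : ℤ) : ev X Y (ct c) = c := by
  simp [ev, ct]

/-- odd, up, p, x, y -/
abbrev Seg := Bool × Bool × Af × Af × Af

def Seg.o (s : Seg) : ℤ := if s.1 then 1 else 0
def Seg.p (s : Seg) : Af := s.2.2.1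
def Seg.x (s : Seg) : Af := s.2.2.2.1
def Seg.y (s : Seg) : Af := s.2.2.2.2
def Seg.len (s : Seg) : Af := ad (ad s.p s.p) (ct s.o)
def Seg.ok (s : Seg) : Bool := decide (1 ≤ 2 * s.p.1 + s.o) && decide (0 ≤ s.p.2.1) && decide (0 ≤ s.p.2.2)
def Seg.last (s : Seg) : Af :=
  if s.1 then (if s.2.1 then ad s.x s.p else sb s.x s.p)
  else (if s.2.1 then ad s.y (sb s.p (ct 1)) else sb s.y (sb s.p (ct 1)))
def Seg.tiles (k : Af) (s : Seg) : List (Af × Af) :=
  if s.2.1 then
    [(s.x, ad s.p (ct s.o)), (s.y, s.p), (sb (sb (sb k s.x) s.y) (sb s.len (ct 2)), sb s.len (ct 1))]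
  else
    [(sb s.x (ad s.p (ct (s.o - 1))), ad s.p (ct s.o)), (sb s.y (sb s.p (ct 1)), s.p),
      (sb (sb k s.x) s.y, sb s.len (ct 1))]

def Cov (X Y : ℕ) (T : List (Af × Af)) (z : ℤ) : Prop :=
  ∃ t ∈ T, ev X Y t.1 ≤ z ∧ z < ev X Y t.1 + ev X Y t.2

theorem seg_P (X Y : ℕ) (k : Af) (s : Seg) (h : s.ok = true) :
    P (ev X Y k) (ev X Y s.len) (ev X Y s.x) (ev X Y s.last) (Cov X Y (s.tiles k)) := by
  have hp : 1 ≤ 2 * ev X Y s.p + s.o := by
    simp only [Seg.ok, Bool.and_eq_true, decide_eq_true_eq] at h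
    obtain ⟨⟨h1, h2⟩, h3⟩ := h
    have a1 : 0 ≤ s.p.2.1 * X := by positivity
    have a2 : 0 ≤ s.p.2.2 * Y := by positivity
    unfold ev; omega
  have hl : ev X Y s.len = 2 * ev X Y s.p + s.o := by simp [Seg.len]; ring
  have ho : s.o = 0 ∨ s.o = 1 := by unfold Seg.o; split_ifs <;> simp
  have key := zig (ev X Y k) (ev X Y s.p) s.o (ev X Y s.x) (ev X Y s.y) (if s.2.1 then 1 else -1) ho
    (by split_ifs <;> simp) hp
  rw [hl]
  have e : ev X Y s.last = (if s.o = 1 then ev X Y s.x + (if s.2.1 then 1 else -1) * ev X Y s.p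
      else ev X Y s.y + (if s.2.1 then 1 else -1) * (ev X Y s.p - 1)) := by
    unfold Seg.last Seg.o
    cases s.1 <;> cases s.2.1 <;> simp <;> ring
  rw [e]
  refine key.mono ?_
  rintro z ⟨t, ht, h1, h2⟩
  unfold Seg.tiles at ht
  cases hu : s.2.1
  · simp only [hu, Bool.false_eq_true, if_false, List.mem_cons, List.not_mem_nil, or_false] at ht ⊢
    rcases ht with rfl | rfl | rfl <;> simp only [ev_ad, ev_sb, ev_ct, hl] at h1 h2
    · exact Or.inl ⟨ev X Y s.x - z, by omega, by omega, by omega⟩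
    · exact Or.inr (Or.inl ⟨ev X Y s.y - z, by omega, by omega, by omega⟩)
    · exact Or.inr (Or.inr ⟨z - (ev X Y k - ev X Y s.x - ev X Y s.y), by omega, by omega, by omega⟩)
  · simp only [hu, if_true, List.mem_cons, List.not_mem_nil, or_false] at ht ⊢
    rcases ht with rfl | rfl | rfl <;> simp only [ev_ad, ev_sb, ev_ct, hl] at h1 h2
    · exact Or.inl ⟨z - ev X Y s.x, by omega, by omega, by omega⟩
    · exact Or.inr (Or.inl ⟨z - ev X Y s.y, by omega, by omega, by omega⟩)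
    · exact Or.inr (Or.inr ⟨(ev X Y k - ev X Y s.x - ev X Y s.y) - z, by omega, by omega, by omega⟩)

def lenL (s : Seg) : List Seg → Af
  | [] => s.len
  | t :: r => ad s.len (lenL t r)
def lastL (s : Seg) : List Seg → Af
  | [] => s.last
  | t :: r => lastL t r
def tilesL (k : Af) (s : Seg) : List Seg → List (Af × Af)
  | [] => s.tiles k
  | t :: r => s.tiles k ++ (sb (sb k s.last) t.x, ct 1) :: tilesL k t r

theorem list_P (X Y : ℕ) (k : Af) (r : List Seg) : ∀ s : Seg, s.ok = true → r.all Seg.ok = true →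
    P (ev X Y k) (ev X Y (lenL s r)) (ev X Y s.x) (ev X Y (lastL s r)) (Cov X Y (tilesL k s r)) := by
  induction r with
  | nil => intro s hs _; exact seg_P X Y k s hs
  | cons t r ih =>
    intro s hs hr
    simp only [List.all_cons, Bool.and_eq_true] at hr
    have := (seg_P X Y k s hs).glue (ih t hr.1 hr.2)
    simp only [lenL, lastL, tilesL, ev_ad]
    refine this.mono ?_
    rintro z ⟨u, hu, h1, h2⟩
    simp only [List.mem_append, List.mem_cons] at hu
    rcases hu with hu | rfl | hu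
    · exact Or.inl ⟨u, hu, h1, h2⟩
    · simp only [ev_sb, ev_ct] at h1 h2
      exact Or.inr (Or.inl (by omega))
    · exact Or.inr (Or.inr ⟨u, hu, h1, h2⟩)

def chain (T : List (Af × Af)) (e : Af) : ℕ → Af → Bool
  | 0, _ => false
  | fuel + 1, c => if c = e then true else
      match T.find? (fun t => decide (t.1 = c) && decide (t.2 ≠ ct 0)) with
      | none => false
      | some t => chain T e fuel (ad c t.2)

theorem chain_cov (X Y : ℕ) (T : List (Af × Af)) (e : Af) (fuel : ℕ) : ∀ c, chain T e fuel c = true →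
    ∀ z, ev X Y c ≤ z → z < ev X Y e → Cov X Y T z := by
  induction fuel with
  | zero => intro c h; simp [chain] at h
  | succ n ih =>
    intro c h z h1 h2
    unfold chain at h
    split_ifs at h with hc
    · subst hc; omega
    · split at h
      · simp at h
      · rename_i t ht
        have hm := List.mem_of_find?_eq_some ht
        have hp := List.find?_some ht
        simp only [Bool.and_eq_true, decide_eq_true_eq] at hp
        by_cases hz : z < ev X Y c + ev X Y t.2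
        · exact ⟨t, hm, by rw [hp.1]; exact h1, by rw [hp.1]; exact hz⟩
        · exact ih _ h z (by rw [ev_ad]; omega) h2

def Good (n k : ℤ) : Prop :=
  ∃ f : ℤ → ℤ, ∀ z, 1 ≤ z → z ≤ 2 * n →
    (∃ i, 0 ≤ i ∧ i < n ∧ f i = z) ∨ (∃ i, 0 ≤ i ∧ i < n ∧ k - f i - f ((i + 1) % n) = z)

abbrev Cert := Af × Af × Seg × List Seg

def Cert.ok (c : Cert) : Bool :=
  c.2.2.1.ok && c.2.2.2.all Seg.ok && decide (lenL c.2.2.1 c.2.2.2 = c.1) &&
    chain ((sb (sb c.2.1 (lastL c.2.2.1 c.2.2.2)) c.2.2.1.x, ct 1) :: tilesL c.2.1 c.2.2.1 c.2.2.2)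
      (ad (ad c.1 c.1) (ct 1)) 40 (ct 1)

theorem cert_good (c : Cert) (h : c.ok = true) (X Y : ℕ) : Good (ev X Y c.1) (ev X Y c.2.1) := by
  obtain ⟨n, k, s, r⟩ := c
  simp only [Cert.ok, Bool.and_eq_true, decide_eq_true_eq] at h
  obtain ⟨⟨⟨h1, h2⟩, h3⟩, h4⟩ := h
  obtain ⟨f, f1, f2, f3, f4⟩ := list_P X Y k r s h1 h2
  rw [h3] at f1 f3 f4
  refine ⟨f, fun z z1 z2 => ?_⟩
  dsimp only at z2
  obtain ⟨u, hu, u1, u2⟩ := chain_cov X Y _ _ _ _ h4 z (by simpa using z1) (by simp; omega)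
  dsimp only
  rcases List.mem_cons.1 hu with rfl | hu
  · simp only [ev_sb, ev_ct] at u1 u2
    refine Or.inr ⟨ev X Y n - 1, by omega, by omega, ?_⟩
    rw [sub_add_cancel, Int.emod_self, f2, f3]; omega
  · rcases f4 z ⟨u, hu, u1, u2⟩ with h | ⟨i, i0, i1, e⟩
    · exact Or.inl h
    · exact Or.inr ⟨i, i0, by omega, by rw [Int.emod_eq_of_lt (by omega) i1]; exact e⟩

theorem Good.dual {n k : ℤ} (h : Good n k) : Good n (6 * n + 3 - k) := by
  obtain ⟨f, hf⟩ := h
  refine ⟨fun i => 2 * n + 1 - f i, fun z z1 z2 => ?_⟩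
  rcases hf (2 * n + 1 - z) (by omega) (by omega) with ⟨i, i0, i1, e⟩ | ⟨i, i0, i1, e⟩
  · exact Or.inl ⟨i, i0, i1, by dsimp only; omega⟩
  · exact Or.inr ⟨i, i0, i1, by dsimp only; omega⟩

theorem Good.out {n k : ℕ} (h : Good n k) {ι : Type} [Fintype ι] (hc : Fintype.card ι = n)
    (val : ι → ℕ) (hv : ∀ i < n, ∃ a, val a = i) (su : ι → ι)
    (hs : ∀ a, val (su a) = (val a + 1) % n) :
    ∃ f g : ι → ℕ, Function.Injective (Sum.elim f g) ∧
      (∀ x, Sum.elim f g x ∈ Finset.Icc 1 (2 * n)) ∧ ∀ i, g i + f i + f (su i) = k := by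
  classical
  obtain ⟨f, hf⟩ := h
  let F : ι ⊕ ι → ℤ := Sum.elim (fun a => f (val a)) (fun a => k - f (val a) - f (val (su a)))
  have sub : Finset.Icc (1 : ℤ) (2 * n) ⊆ Finset.univ.image F := by
    intro z hz
    rw [Finset.mem_Icc] at hz
    rcases hf z hz.1 hz.2 with ⟨i, i0, i1, e⟩ | ⟨i, i0, i1, e⟩
    · obtain ⟨a, ha⟩ := hv i.toNat (by omega)
      refine Finset.mem_image.2 ⟨Sum.inl a, Finset.mem_univ _, ?_⟩
      show f (val a) = z
      rw [ha, Int.toNat_of_nonneg i0, e]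
    · obtain ⟨a, ha⟩ := hv i.toNat (by omega)
      refine Finset.mem_image.2 ⟨Sum.inr a, Finset.mem_univ _, ?_⟩
      show k - f (val a) - f (val (su a)) = z
      rw [hs, ha]; push_cast
      rw [Int.toNat_of_nonneg i0, e]
  have c1 : (Finset.Icc (1 : ℤ) (2 * n)).card = 2 * n := by simp; omega
  have c2 : (Finset.univ : Finset (ι ⊕ ι)).card = 2 * n := by simp [hc]; ring
  have c3 := Finset.card_image_le (s := Finset.univ) (f := F)
  have eq := Finset.eq_of_subset_of_card_le sub (by omega)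
  have inj : Function.Injective F := by
    have := (Finset.card_image_iff (s := Finset.univ) (f := F)).1 (by rw [← eq]; omega)
    intro a b hab
    exact this (by simp) (by simp) hab
  have rg : ∀ x, 1 ≤ F x ∧ F x ≤ 2 * n := fun x => by
    have : F x ∈ Finset.Icc (1 : ℤ) (2 * n) := by
      rw [eq]; exact Finset.mem_image_of_mem _ (Finset.mem_univ _)
    exact Finset.mem_Icc.1 this
  have ee : ∀ x, Sum.elim (fun a => (F (Sum.inl a)).toNat) (fun a => (F (Sum.inr a)).toNat) x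
      = (F x).toNat := by
    intro x; cases x <;> rfl
  refine ⟨fun a => (F (Sum.inl a)).toNat, fun a => (F (Sum.inr a)).toNat, ?_, ?_, ?_⟩
  · intro a b hab
    rw [ee, ee] at hab
    apply inj
    have := rg a; have := rg b; omega
  · intro x
    rw [ee, Finset.mem_Icc]
    have := rg x; omega
  · intro i
    have a1 := rg (Sum.inl i); have a2 := rg (Sum.inr i); have a3 := rg (Sum.inl (su i))
    have : F (Sum.inr i) = k - F (Sum.inl i) - F (Sum.inl (su i)) := rfl
    dsimp only; omega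

end Pool.Agent.H.MP_933a78_co
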