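import Pool.Agent.H.MP_933a78_co.A

set_option autoImplicit false

namespace Pool.Agent.H.MP_933a78_co

def c0 : Cert := ((7,6,6), (19,18,15), (false,false,(1,0,1),(4,4,4),(1,2,1)),
  [(true,true,(0,1,0),(6,5,5),(13,11,10)),
   (false,true,(1,1,1),(5,4,4),(3,3,1)),
   (true,true,(0,0,1),(7,6,5),(4,4,2)),
   (true,false,(0,1,0),(2,3,1),(9,9,8))])
def c1 : Cert := ((10,6,6), (30,18,15), (false,false,(1,0,1),(6,4,3),(4,2,2)),
  [(true,false,(1,1,0),(19,12,10),(3,2,1)),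
   (true,true,(1,1,1),(1,0,0),(12,7,5)),
   (true,false,(0,1,0),(15,9,8),(10,7,5)),
   (true,false,(0,0,1),(10,6,5),(6,4,4))])
def c2 : Cert := ((9,6,6), (27,18,15), (false,false,(1,0,1),(3,2,1),(6,4,4)),
  [(true,false,(0,0,1),(9,6,6),(5,4,3)),
   (true,false,(0,1,0),(17,12,10),(8,6,5)),
   (false,false,(2,1,1),(8,5,5),(5,4,2)),
   (true,false,(0,1,0),(13,9,8),(3,3,1))])
def c3 : Cert := ((14,6,6), (40,18,15), (false,false,(2,0,1),(6,2,2),(8,4,3)),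
  [(true,true,(0,1,0),(10,4,3),(24,10,10)),
   (true,true,(0,0,1),(12,5,4),(11,5,3)),
   (true,false,(2,1,1),(17,8,6),(4,2,1)),
   (true,true,(1,1,0),(24,11,10),(2,0,0))])
def c4 : Cert := ((14,6,6), (41,18,15), (true,false,(1,0,1),(9,4,3),(5,2,2)),
  [(true,true,(0,1,0),(23,10,10),(11,4,3)),
   (true,true,(0,0,1),(11,5,3),(12,5,4)),
   (true,false,(2,1,1),(18,8,6),(4,2,1)),
   (false,true,(2,1,0),(1,0,0),(25,11,10))])
def c5 : Cert := ((11,6,6), (32,18,15), (true,true,(0,0,1),(9,6,3),(1,0,0)),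
  [(true,true,(1,1,1),(1,0,1),(12,7,4)),
   (false,true,(1,0,1),(13,8,5),(5,2,2)),
   (false,false,(1,1,0),(16,9,8),(10,7,4)),
   (true,true,(0,0,0),(7,4,3),(0,0,0)),
   (false,false,(1,1,0),(21,12,10),(3,2,2))])
def c6 : Cert := ((16,6,6), (46,18,15), (false,false,(2,0,1),(12,4,4),(4,2,1)),
  [(false,true,(1,1,0),(15,5,5),(29,11,10)),
   (true,true,(0,0,1),(16,6,5),(10,4,2)),
   (true,false,(0,0,0),(20,8,6),(33,12,12)),
   (false,true,(2,1,0),(5,2,1),(22,8,8)),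
   (false,false,(2,1,1),(14,5,5),(8,4,2))])
def c7 : Cert := ((13,6,6), (38,18,15), (false,false,(1,0,1),(8,4,3),(4,2,2)),
  [(true,false,(0,0,0),(18,8,8),(27,12,12)),
   (false,true,(1,0,1),(9,4,3),(12,6,4)),
   (true,true,(0,1,0),(19,8,8),(13,6,5)),
   (false,true,(3,1,1),(13,7,5),(1,0,0)),
   (true,true,(0,1,0),(25,11,10),(4,1,1))])
def c8 : Cert := ((11,6,6), (31,18,15), (true,true,(1,0,1),(8,6,3),(1,0,0)),
  [(true,true,(1,1,1),(2,0,1),(11,7,4)),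
   (false,true,(1,0,1),(12,8,5),(6,2,2)),
   (true,false,(0,1,0),(10,7,4),(14,9,8)),
   (true,true,(0,0,0),(7,4,3),(0,0,0)),
   (true,false,(0,1,0),(19,12,10),(4,2,2))])
def c9 : Cert := ((6,0,6), (19,0,15), (true,true,(0,0,1),(7,0,5),(2,0,0)),
  [(false,true,(1,0,1),(3,0,1),(4,0,2)),
   (false,false,(1,0,1),(5,0,4),(6,0,5)),
   (true,true,(0,0,0),(11,0,10),(0,0,0))])
def c10 : Cert := ((12,6,6), (37,18,15), (false,false,(1,0,1),(6,2,2),(7,4,3)),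
  [(true,true,(0,1,0),(21,10,10),(10,4,3)),
   (true,true,(0,0,1),(11,5,4),(10,5,3)),
   (true,false,(2,1,1),(16,8,6),(4,2,1)),
   (true,true,(1,1,0),(22,11,10),(2,0,0))])
def c11 : Cert := ((15,6,6), (40,18,15), (false,false,(3,0,1),(11,4,4),(3,2,1)),
  [(true,true,(0,1,0),(14,5,5),(26,11,10)),
   (true,true,(0,0,1),(8,4,2),(15,6,5)),
   (true,false,(0,0,0),(17,8,6),(31,12,12)),
   (false,true,(1,1,0),(4,2,1),(20,8,8)),
   (false,false,(2,1,1),(13,5,5),(6,4,2))])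
def c12 : Cert := ((11,6,6), (30,18,15), (true,true,(0,0,1),(7,6,3),(1,0,0)),
  [(true,true,(1,1,1),(1,0,1),(10,7,4)),
   (false,true,(2,0,1),(11,8,5),(4,2,2)),
   (true,false,(0,1,0),(16,9,8),(8,7,4)),
   (true,true,(0,0,0),(6,4,3),(0,0,0)),
   (true,false,(0,1,0),(3,2,2),(20,12,10))])
def c13 : Cert := ((9,6,0), (28,18,0), (false,false,(1,0,0),(7,4,0),(3,2,0)),
  [(false,false,(1,1,0),(12,8,0),(2,2,0)),
   (true,false,(1,1,0),(17,12,0),(1,1,0)),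
   (false,false,(1,1,0),(8,5,0),(15,11,0))])
def c14 : Cert := ((10,6,0), (31,18,0), (true,true,(0,0,0),(1,0,0),(11,6,0)),
  [(false,true,(2,1,0),(16,10,0),(2,0,0)),
   (true,false,(1,1,0),(19,12,0),(8,5,0)),
   (false,true,(1,1,0),(6,3,0),(10,5,0))])
def c15 : Cert := ((10,6,0), (29,18,0), (true,false,(2,1,0),(9,5,0),(3,3,0)),
  [(true,false,(0,0,0),(16,10,0),(6,4,0)),
   (true,false,(0,1,0),(12,8,0),(15,10,0)),
   (true,true,(1,1,0),(4,3,0),(14,8,0))])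
def c16 : Cert := ((4,0,6), (12,0,15), (true,true,(0,0,1),(1,0,0),(5,0,5)),
  [(true,true,(0,0,0),(6,0,8),(0,0,0)),
   (true,false,(0,0,1),(2,0,2),(2,0,3)),
   (true,false,(0,0,1),(3,0,4),(3,0,5))])
def c17 : Cert := ((6,0,6), (17,0,15), (true,true,(0,0,1),(1,0,0),(7,0,5)),
  [(true,true,(0,0,0),(9,0,8),(0,0,0)),
   (false,false,(1,0,1),(2,0,2),(3,0,3)),
   (false,true,(1,0,1),(4,0,3),(5,0,4))])
def c18 : Cert := ((10,0,6), (28,0,15), (false,true,(2,0,1),(1,0,0),(11,0,5)),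
  [(false,false,(1,0,1),(9,0,5),(6,0,4)),
   (true,false,(1,0,1),(4,0,2),(5,0,3)),
   (true,true,(0,0,0),(17,0,10),(0,0,0))])
def c19 : Cert := ((7,0,6), (20,0,15), (false,true,(1,0,1),(7,0,5),(1,0,0)),
  [(false,true,(1,0,1),(6,0,4),(5,0,3)),
   (false,false,(1,0,1),(4,0,3),(2,0,2)),
   (true,true,(0,0,0),(10,0,8),(0,0,0))])
def c20 : Cert := ((7,0,6), (21,0,15), (false,true,(1,0,1),(8,0,5),(2,0,0)),
  [(true,true,(0,0,0),(13,0,10),(0,0,0)),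
   (false,false,(1,0,1),(7,0,5),(5,0,4)),
   (false,true,(1,0,1),(4,0,2),(3,0,1))])
def c21 : Cert := ((18,6,6), (54,18,15), (true,false,(1,0,1),(14,4,3),(5,2,2)),
  [(false,true,(3,1,0),(17,6,5),(25,8,8)),
   (true,true,(3,1,1),(20,7,5),(1,0,0)),
   (true,false,(0,0,1),(16,6,5),(14,4,4)),
   (true,true,(0,1,0),(34,11,10),(5,1,1))])
def c22 : Cert := ((11,6,0), (33,18,0), (false,false,(1,0,0),(2,1,0),(10,5,0)),
  [(true,false,(0,1,0),(1,1,0),(17,10,0)),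
   (true,false,(0,1,0),(18,11,0),(3,2,0)),
   (false,true,(2,0,0),(12,7,0),(4,2,0)),
   (true,true,(1,1,0),(19,11,0),(6,2,0))])
def c23 : Cert := ((15,6,0), (43,18,0), (false,false,(2,0,0),(3,1,0),(13,5,0)),
  [(true,false,(0,1,0),(1,1,0),(23,10,0)),
   (true,false,(0,1,0),(24,11,0),(4,2,0)),
   (false,true,(3,0,0),(15,7,0),(5,2,0)),
   (true,true,(1,1,0),(25,11,0),(8,2,0))])
def c24 : Cert := ((18,6,6), (53,18,15), (true,false,(1,0,1),(13,4,3),(5,2,2)),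
  [(true,true,(2,1,0),(24,8,8),(18,6,5)),
   (true,true,(3,1,1),(20,7,5),(1,0,0)),
   (true,false,(0,0,1),(16,6,5),(13,4,4)),
   (false,true,(1,1,0),(4,1,1),(34,11,10))])
def c25 : Cert := ((16,6,6), (44,18,15), (false,true,(3,1,1),(1,0,0),(15,6,5)),
  [(false,false,(2,0,1),(8,3,3),(6,3,2)),
   (false,true,(1,1,0),(18,7,6),(22,8,8)),
   (true,true,(1,1,0),(9,3,3),(23,9,8)),
   (true,true,(0,0,1),(14,6,4),(11,4,3))])
def c26 : Cert := ((12,0,6), (36,0,15), (false,false,(1,0,1),(8,0,3),(5,0,2)),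
  [(true,false,(0,0,0),(7,0,2),(20,0,10)),
   (false,true,(1,0,1),(9,0,3),(11,0,4)),
   (false,false,(2,0,1),(15,0,6),(4,0,1)),
   (true,true,(1,0,0),(21,0,10),(13,0,5))])
def c27 : Cert := ((9,6,0), (26,18,0), (true,false,(0,1,0),(7,6,0),(18,12,0)),
  [(false,false,(2,1,0),(4,4,0),(6,5,0)),
   (true,true,(0,0,0),(13,8,0),(9,6,0)),
   (false,true,(1,1,0),(1,2,0),(14,8,0)),
   (true,false,(0,0,0),(10,6,0),(19,12,0))])
def c28 : Cert := ((7,6,6), (22,18,15), (false,false,(1,0,1),(5,4,3),(3,2,2)),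
  [(true,false,(0,1,0),(13,12,10),(2,2,1)),
   (false,true,(1,1,1),(1,0,0),(9,7,5)),
   (true,false,(0,1,0),(11,9,8),(7,7,5)),
   (true,false,(0,0,1),(7,6,5),(5,4,4))])
def c29 : Cert := ((14,6,6), (42,18,15), (false,false,(1,0,1),(8,4,3),(6,2,2)),
  [(true,false,(1,1,0),(26,12,10),(5,2,1)),
   (true,true,(2,1,1),(2,0,0),(16,7,5)),
   (true,false,(0,1,0),(20,9,8),(14,7,5)),
   (false,true,(1,0,1),(9,4,3),(14,6,4)),
   (true,false,(0,0,0),(27,12,10),(29,12,12))])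
def c30 : Cert := ((13,6,6), (39,18,15), (true,true,(2,1,1),(1,0,0),(14,6,5)),
  [(true,false,(1,1,0),(19,9,8),(16,8,6)),
   (true,true,(0,0,1),(10,4,3),(12,6,4)),
   (true,false,(0,1,0),(20,10,8),(8,4,3)),
   (false,true,(1,0,1),(7,3,2),(6,3,1)),
   (true,true,(0,0,0),(25,12,10),(0,0,0))])
def c31 : Cert := ((8,0,6), (23,0,15), (false,true,(1,0,1),(8,0,5),(1,0,0)),
  [(true,true,(0,0,0),(10,0,6),(0,0,0)),
   (true,true,(0,0,0),(11,0,8),(0,0,0)),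
   (true,true,(0,0,1),(5,0,3),(8,0,4)),
   (false,true,(1,0,1),(3,0,1),(4,0,2)),
   (true,true,(0,0,0),(6,0,4),(0,0,0))])
def c32 : Cert := ((8,0,6), (24,0,15), (false,true,(1,0,1),(1,0,0),(9,0,5)),
  [(true,true,(0,0,0),(12,0,8),(0,0,0)),
   (true,true,(0,0,0),(2,0,1),(0,0,0)),
   (false,false,(1,0,1),(6,0,4),(7,0,5)),
   (true,false,(0,0,1),(4,0,3),(3,0,2)),
   (true,true,(0,0,0),(15,0,10),(0,0,0))])
def c33 : Cert := ((12,0,6), (35,0,15), (false,true,(2,0,1),(1,0,0),(14,0,5)),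
  [(true,true,(0,0,0),(17,0,8),(0,0,0)),
   (true,true,(1,0,1),(7,0,2),(4,0,1)),
   (true,true,(0,0,0),(21,0,10),(0,0,0)),
   (false,true,(1,0,1),(9,0,3),(10,0,4)),
   (true,true,(0,0,0),(12,0,5),(0,0,0))])
def c34 : Cert := ((8,0,6), (22,0,15), (true,true,(0,0,1),(1,0,0),(8,0,5)),
  [(true,true,(0,0,0),(11,0,8),(0,0,0)),
   (false,true,(1,0,1),(4,0,2),(3,0,1)),
   (true,false,(0,0,1),(6,0,5),(5,0,4)),
   (true,true,(0,0,0),(2,0,1),(0,0,0)),
   (true,true,(0,0,0),(8,0,6),(0,0,0)),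
   (true,true,(0,0,0),(5,0,3),(0,0,0))])
def c35 : Cert := ((3,0,6), (9,0,15), (true,true,(0,0,1),(1,0,0),(4,0,5)),
  [(true,true,(0,0,1),(2,0,2),(2,0,1)),
   (true,true,(0,0,1),(3,0,4),(3,0,3))])
def c36 : Cert := ((11,6,0), (34,18,0), (true,true,(0,0,0),(1,0,0),(17,9,0)),
  [(false,true,(1,1,0),(14,7,0),(2,0,0)),
   (false,false,(2,1,0),(22,12,0),(9,5,0)),
   (false,true,(2,1,0),(6,3,0),(15,8,0))])
def c37 : Cert := ((4,0,0), (13,0,0), (true,false,(0,0,0),(2,0,0),(2,0,0)),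
  [(true,false,(0,0,0),(5,0,0),(1,0,0)),
   (true,false,(0,0,0),(1,0,0),(8,0,0)),
   (true,false,(0,0,0),(8,0,0),(2,0,0))])
def c38 : Cert := ((5,0,6), (14,0,15), (false,true,(1,0,1),(4,0,5),(1,0,0)),
  [(true,false,(0,0,1),(3,0,4),(3,0,5)),
   (true,true,(0,0,0),(5,0,6),(0,0,0)),
   (true,false,(0,0,1),(2,0,3),(1,0,2))])
def c39 : Cert := ((12,0,6), (33,0,15), (true,true,(2,0,1),(12,0,5),(1,0,0)),
  [(false,false,(1,0,1),(10,0,5),(8,0,4)),
   (false,false,(2,0,1),(4,0,2),(7,0,3)),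
   (true,true,(0,0,0),(16,0,8),(0,0,0))])
def c40 : Cert := ((8,0,0), (25,0,0), (true,false,(1,0,0),(9,0,0),(1,0,0)),
  [(true,false,(0,0,0),(5,0,0),(7,0,0)),
   (true,false,(0,0,0),(14,0,0),(4,0,0)),
   (false,false,(1,0,0),(4,0,0),(10,0,0)),
   (true,false,(0,0,0),(13,0,0),(9,0,0))])
def c41 : Cert := ((9,0,6), (25,0,15), (false,true,(1,0,1),(9,0,5),(1,0,0)),
  [(true,true,(0,0,0),(13,0,8),(0,0,0)),
   (true,true,(0,0,0),(8,0,5),(0,0,0)),
   (true,false,(1,0,1),(3,0,2),(5,0,3)),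
   (false,true,(1,0,1),(7,0,4),(6,0,3))])
def c42 : Cert := ((9,0,6), (26,0,15), (false,true,(1,0,1),(2,0,0),(11,0,5)),
  [(true,false,(0,0,1),(7,0,4),(7,0,5)),
   (false,true,(2,0,1),(5,0,2),(3,0,1)),
   (true,true,(0,0,0),(10,0,5),(0,0,0)),
   (true,true,(0,0,0),(15,0,10),(0,0,0))])
def c43 : Cert := ((15,6,6), (44,18,15), (true,false,(1,0,1),(6,2,2),(9,4,3)),
  [(true,false,(0,0,0),(28,12,10),(31,12,12)),
   (false,true,(1,1,0),(15,6,5),(21,8,8)),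
   (false,true,(1,1,0),(4,1,1),(27,11,10)),
   (false,true,(1,0,1),(10,4,3),(14,6,4)),
   (true,false,(2,1,1),(18,8,6),(3,1,1))])
def c44 : Cert := ((14,6,6), (43,18,15), (false,false,(1,0,1),(10,4,3),(5,2,2)),
  [(true,false,(0,0,0),(20,8,8),(29,12,12)),
   (false,true,(1,0,1),(11,4,3),(13,6,4)),
   (true,true,(1,1,0),(21,8,8),(14,6,5)),
   (true,false,(2,1,1),(17,8,6),(3,1,1)),
   (true,true,(0,1,0),(27,11,10),(5,1,1))])
def c45 : Cert := ((6,0,0), (18,0,0), (true,true,(0,0,0),(1,0,0),(0,0,0)),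
  [(true,true,(0,0,0),(8,0,0),(0,0,0)),
   (true,true,(0,0,0),(4,0,0),(0,0,0)),
   (true,true,(0,0,0),(2,0,0),(0,0,0)),
   (true,true,(0,0,0),(5,0,0),(0,0,0)),
   (true,true,(0,0,0),(10,0,0),(0,0,0))])

def certs : List Cert := [c0, c1, c2, c3, c4, c5, c6, c7, c8, c9, c10, c11, c12, c13, c14, c15, c16, c17, c18, c19, c20, c21, c22, c23, c24, c25, c26, c27, c28, c29, c30, c31, c32, c33, c34, c35, c36, c37, c38, c39, c40, c41, c42, c43, c44, c45]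

theorem certs_ok : certs.all Cert.ok = true := by decide +kernel

def hit (a b : ℕ) (c : Cert) : Bool :=
  (decide (a < 13) || (decide (c.1.2.1 = 6) && decide (c.2.1.2.1 = 18))) &&
  (decide (b < 4) || (decide (c.1.2.2 = 6) && decide (c.2.1.2.2 = 15))) &&
  (List.range 3).any fun X => (List.range 3).any fun Y =>
    decide (ev X Y c.1 = a + 2 * b - 2) && decide (ev X Y c.2.1 = 3 * (a + 2 * b - 2) + 1 - b)

theorem box : (List.range 19).all (fun a => (List.range 7).all fun b =>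
    decide (a < 3) || decide (a + 2 * b < 6) || decide (a + 2 * b = 7) || certs.any (hit a b)) = true := by
  decide +kernel

theorem low (a b : ℕ) (h3 : 3 ≤ a) (h6 : 6 ≤ a + 2 * b) (h7 : a + 2 * b ≠ 7) :
    Good ((a : ℤ) + 2 * b - 2) (3 * ((a : ℤ) + 2 * b - 2) + 1 - b) := by
  obtain ⟨a', U, a1, a2, a3, a4⟩ : ∃ a' U : ℕ, a = a' + 6 * U ∧ a' < 19 ∧ 3 ≤ a' ∧ (a' < 13 → U = 0) := by
    by_cases h : a < 19
    · exact ⟨a, 0, by omega, h, h3, fun _ => rfl⟩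
    · exact ⟨13 + (a - 13) % 6, (a - 13) / 6, by omega, by omega, by omega, by omega⟩
  obtain ⟨b', V, b1, b2, b4⟩ : ∃ b' V : ℕ, b = b' + 3 * V ∧ b' < 7 ∧ (b' < 4 → V = 0) := by
    by_cases h : b < 7
    · exact ⟨b, 0, by omega, h, fun _ => rfl⟩
    · exact ⟨4 + (b - 4) % 3, (b - 4) / 3, by omega, by omega, by omega⟩
  have hb := box
  simp only [List.all_eq_true, List.mem_range, Bool.or_eq_true, decide_eq_true_eq,
    List.any_eq_true] at hb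
  obtain ⟨c, hc, hh⟩ : ∃ c ∈ certs, hit a' b' c = true := by
    rcases hb a' a2 b' b2 with ((h | h) | h) | h
    · omega
    · omega
    · omega
    · exact h
  have ok := List.all_eq_true.1 certs_ok c hc
  simp only [hit, Bool.and_eq_true, Bool.or_eq_true, decide_eq_true_eq, List.any_eq_true] at hh
  obtain ⟨⟨h1, h2⟩, X, -, Y, -, e1, e2⟩ := hh
  have key := cert_good c ok (X + U) (Y + V)
  have f1 : ev (X + U) (Y + V) c.1 = ev X Y c.1 + c.1.2.1 * U + c.1.2.2 * V := by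
    simp only [ev]; push_cast; ring
  have f2 : ev (X + U) (Y + V) c.2.1 = ev X Y c.2.1 + c.2.1.2.1 * U + c.2.1.2.2 * V := by
    simp only [ev]; push_cast; ring
  have g1 : c.1.2.1 * U = 6 * U ∧ c.2.1.2.1 * U = 18 * U := by
    rcases h1 with h | h
    · simp [a4 h]
    · rw [h.1, h.2]; exact ⟨rfl, rfl⟩
  have g2 : c.1.2.2 * V = 6 * V ∧ c.2.1.2.2 * V = 15 * V := by
    rcases h2 with h | h
    · simp [b4 h]
    · rw [h.1, h.2]; exact ⟨rfl, rfl⟩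
  rw [f1, f2, g1.1, g1.2, g2.1, g2.2, e1, e2] at key
  convert key using 1 <;> (subst a1 b1; push_cast; ring)

theorem all (n k : ℕ) (h4 : 4 ≤ n) (h5 : n ≠ 5) (lo : 5 * n + 3 ≤ 2 * k) (hi : 2 * k ≤ 7 * n + 3) :
    Good n k := by
  by_cases h : k ≤ 3 * n + 1
  · have := low (2 * k - 5 * n) (3 * n + 1 - k) (by omega) (by omega) (by omega)
    convert this using 1 <;> omega
  · have := (low (7 * n + 6 - 2 * k) (k - 3 * n - 2) (by omega) (by omega) (by omega)).dual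
    convert this using 1 <;> omega

end Pool.Agent.H.MP_933a78_co
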